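import Pool.Agent.Y755.FK.Stm

/-! Project FK, step EEA: rules for asymptotic expansions (helper518). -/

set_option autoImplicit false

namespace Pool.Agent.Y518.FK

open Polynomial Filter Topology Pool.Agent.Y755.FK

/-- comparison at zero -/
lemma le_at_zero (φ ψ : ℝ → ℝ) (hφ : Continuous φ) (hψ : Continuous ψ)
    (h : ∀ x : ℝ, 0 < x → x < 1 → φ x ≤ ψ x) : φ 0 ≤ ψ 0 := by
  have h1 : Tendsto φ (𝓝[>] (0 : ℝ)) (𝓝 (φ 0)) := hφ.continuousAt.tendsto.mono_left nhdsWithin_le_nhds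
  have h2 : Tendsto ψ (𝓝[>] (0 : ℝ)) (𝓝 (ψ 0)) := hψ.continuousAt.tendsto.mono_left nhdsWithin_le_nhds
  refine le_of_tendsto_of_tendsto h1 h2 ?_
  have h3 : Set.Ioo (0 : ℝ) 1 ∈ 𝓝[>] (0 : ℝ) := Ioo_mem_nhdsGT one_pos
  filter_upwards [h3] with x hx
  exact h x hx.1 hx.2

lemma poly_bdd (p : ℝ[X]) : ∃ B : ℝ, 0 ≤ B ∧ ∀ x : ℝ, 0 < x → x < 1 → |p.eval x| ≤ B := by
  obtain ⟨B, hB⟩ := (isCompact_Icc (a := (0 : ℝ)) (b := 1)).exists_bound_of_continuousOn
    (f := fun x => p.eval x) p.continuous.continuousOn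
  refine ⟨|B|, abs_nonneg _, fun x hx0 hx1 => ?_⟩
  have := hB x ⟨hx0.le, hx1.le⟩
  rw [Real.norm_eq_abs] at this
  exact this.trans (le_abs_self _)

lemma EE.get {f : ℝ → ℝ} (hf : EE f) (n : ℕ) : ∃ (p : ℝ[X]) (C : ℝ), 0 ≤ C ∧
    ∀ x : ℝ, 0 < x → x < 1 → |f x - p.eval x| ≤ C * x ^ n := by
  obtain ⟨p, C, h⟩ := hf n
  refine ⟨p, |C|, abs_nonneg _, fun x hx0 hx1 => (h x hx0 hx1).trans ?_⟩
  exact mul_le_mul_of_nonneg_right (le_abs_self _) (by positivity)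

lemma EE.bdd {f : ℝ → ℝ} (hf : EE f) : ∃ B : ℝ, 0 ≤ B ∧ ∀ x : ℝ, 0 < x → x < 1 → |f x| ≤ B := by
  obtain ⟨p, C, hC, h⟩ := EE.get hf 0
  obtain ⟨B, hB0, hB⟩ := poly_bdd p
  refine ⟨C + B, by positivity, fun x hx0 hx1 => ?_⟩
  have h1 := h x hx0 hx1
  rw [pow_zero, mul_one] at h1
  have h2 := hB x hx0 hx1
  have h3 : f x = (f x - p.eval x) + p.eval x := by ring
  rw [h3]
  exact (abs_add_le _ _).trans (add_le_add h1 h2)

lemma ee_const (a : ℝ) : EE fun _ => a := by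
  intro n
  refine ⟨C a, 0, fun x _ _ => ?_⟩
  simp

lemma ee_id : EE fun x => x := by
  intro n
  refine ⟨X, 0, fun x _ _ => ?_⟩
  simp

lemma ee_add (f g : ℝ → ℝ) (hf : EE f) (hg : EE g) : EE fun x => f x + g x := by
  intro n
  obtain ⟨p, C₁, h1⟩ := hf n
  obtain ⟨q, C₂, h2⟩ := hg n
  refine ⟨p + q, C₁ + C₂, fun x hx0 hx1 => ?_⟩
  have h3 : f x + g x - (p + q).eval x = (f x - p.eval x) + (g x - q.eval x) := by
    rw [eval_add]; ring
  rw [h3, add_mul]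
  exact (abs_add_le _ _).trans (add_le_add (h1 x hx0 hx1) (h2 x hx0 hx1))

lemma ee_mul (f g : ℝ → ℝ) (hf : EE f) (hg : EE g) : EE fun x => f x * g x := by
  intro n
  obtain ⟨p, C₁, hC₁, h1⟩ := EE.get hf n
  obtain ⟨q, C₂, hC₂, h2⟩ := EE.get hg n
  obtain ⟨B, hB0, hB⟩ := EE.bdd hf
  obtain ⟨B', hB'0, hB'⟩ := poly_bdd q
  refine ⟨p * q, B * C₂ + B' * C₁, fun x hx0 hx1 => ?_⟩
  have h3 : f x * g x - (p * q).eval x = f x * (g x - q.eval x) + q.eval x * (f x - p.eval x) := by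
    rw [eval_mul]; ring
  rw [h3]
  refine (abs_add_le _ _).trans ?_
  rw [abs_mul, abs_mul, add_mul]
  have hxn : 0 ≤ x ^ n := by positivity
  refine add_le_add ?_ ?_
  · calc |f x| * |g x - q.eval x| ≤ B * (C₂ * x ^ n) :=
        mul_le_mul (hB x hx0 hx1) (h2 x hx0 hx1) (abs_nonneg _) hB0
      _ = B * C₂ * x ^ n := by ring
  · calc |q.eval x| * |f x - p.eval x| ≤ B' * (C₁ * x ^ n) :=
        mul_le_mul (hB' x hx0 hx1) (h1 x hx0 hx1) (abs_nonneg _) hB'0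
      _ = B' * C₁ * x ^ n := by ring

lemma ee_congr (f g : ℝ → ℝ) (hf : EE f) (h : ∀ x : ℝ, 0 < x → x < 1 → f x = g x) : EE g := by
  intro n
  obtain ⟨p, C, h1⟩ := hf n
  exact ⟨p, C, fun x hx0 hx1 => by rw [← h x hx0 hx1]; exact h1 x hx0 hx1⟩

lemma ee_inv (g : ℝ → ℝ) (hg : EE g)
    (hc : ∃ c : ℝ, 0 < c ∧ ∀ x : ℝ, 0 < x → x < 1 → c ≤ |g x|) : EE fun x => (g x)⁻¹ := by
  obtain ⟨c, hc0, hc⟩ := hc
  have hinv : ∀ x : ℝ, 0 < x → x < 1 → |(g x)⁻¹| ≤ c⁻¹ := by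
    intro x hx0 hx1
    rw [abs_inv]
    exact inv_anti₀ hc0 (hc x hx0 hx1)
  intro n
  rcases Nat.eq_zero_or_pos n with rfl | hn
  · refine ⟨0, c⁻¹, fun x hx0 hx1 => ?_⟩
    simpa using hinv x hx0 hx1
  obtain ⟨q, C₁, hC₁, h1⟩ := EE.get hg n
  have hq0 : q.eval 0 ≠ 0 := by
    have h2 := le_at_zero (fun _ => c) (fun x => |q.eval x| + C₁ * x ^ n) continuous_const
      (by have := q.continuous; fun_prop) (fun x hx0 hx1 => by
        have h3 := h1 x hx0 hx1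
        have h4 := hc x hx0 hx1
        have h5 : g x = (g x - q.eval x) + q.eval x := by ring
        have h6 : |g x| ≤ |g x - q.eval x| + |q.eval x| := by
          conv_lhs => rw [h5]
          exact abs_add_le _ _
        linarith)
    simp only [zero_pow hn.ne', mul_zero, add_zero] at h2
    intro h
    rw [h, abs_zero] at h2
    linarith
  have hcop : IsCoprime (X ^ n : ℝ[X]) q := by
    apply IsCoprime.pow_left
    rw [irreducible_X.coprime_iff_not_dvd, X_dvd_iff, coeff_zero_eq_eval_zero]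
    exact hq0
  obtain ⟨s, r, hsr⟩ := hcop
  obtain ⟨Bs, hBs0, hBs⟩ := poly_bdd s
  obtain ⟨Br, hBr0, hBr⟩ := poly_bdd r
  refine ⟨r, c⁻¹ * (Bs + C₁ * Br), fun x hx0 hx1 => ?_⟩
  have hgx : g x ≠ 0 := by
    intro h
    have := hc x hx0 hx1
    rw [h, abs_zero] at this
    linarith
  have hev : s.eval x * x ^ n + r.eval x * q.eval x = 1 := by
    have := congrArg (eval x) hsr
    simpa using this
  have h3 : (g x)⁻¹ - r.eval x = (g x)⁻¹ * (s.eval x * x ^ n - (g x - q.eval x) * r.eval x) := by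
    have h4 : s.eval x * x ^ n - (g x - q.eval x) * r.eval x = 1 - g x * r.eval x := by
      linear_combination hev
    rw [h4, mul_sub, mul_one, ← mul_assoc, inv_mul_cancel₀ hgx, one_mul]
  rw [h3, abs_mul, mul_assoc]
  have hxn : 0 ≤ x ^ n := by positivity
  refine mul_le_mul (hinv x hx0 hx1) ?_ (abs_nonneg _) (by positivity)
  refine (abs_sub _ _).trans ?_
  rw [abs_mul, abs_mul, add_mul, abs_of_nonneg hxn]
  refine add_le_add ?_ ?_
  · exact mul_le_mul_of_nonneg_right (hBs x hx0 hx1) hxn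
  · calc |g x - q.eval x| * |r.eval x| ≤ (C₁ * x ^ n) * Br :=
        mul_le_mul (h1 x hx0 hx1) (hBr x hx0 hx1) (abs_nonneg _) (by positivity)
      _ = C₁ * Br * x ^ n := by ring

lemma ee_ana (f : ℝ → ℝ) (hf : ∀ x : ℝ, 0 ≤ x → x ≤ 1 → ContDiffAt ℝ ⊤ f x) : EE f := by
  intro n
  have h1 : ContDiffOn ℝ (n + 1) f (Set.Icc (0 : ℝ) 1) := by
    intro x hx
    exact ((hf x hx.1 hx.2).of_le le_top).contDiffWithinAt
  obtain ⟨C₁, hC₁⟩ := exists_taylor_mean_remainder_bound (zero_le_one' ℝ) h1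
  refine ⟨∑ k ∈ Finset.range (n + 1),
    C (((k.factorial : ℝ)⁻¹) * iteratedDerivWithin k f (Set.Icc (0 : ℝ) 1) 0) * X ^ k, |C₁|,
    fun x hx0 hx1 => ?_⟩
  have h2 := hC₁ x ⟨hx0.le, hx1.le⟩
  rw [taylor_within_apply] at h2
  have h3 : (∑ k ∈ Finset.range (n + 1),
      C (((k.factorial : ℝ)⁻¹) * iteratedDerivWithin k f (Set.Icc (0 : ℝ) 1) 0) * X ^ k : ℝ[X]).eval x =
      ∑ k ∈ Finset.range (n + 1), ((k.factorial : ℝ)⁻¹ * (x - 0) ^ k) •
        iteratedDerivWithin k f (Set.Icc (0 : ℝ) 1) 0 := by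
    rw [eval_finsetSum]
    refine Finset.sum_congr rfl fun k _ => ?_
    rw [eval_mul, eval_C, eval_pow, eval_X, sub_zero, smul_eq_mul]
    ring
  rw [h3, ← Real.norm_eq_abs]
  refine h2.trans ?_
  rw [sub_zero, pow_succ]
  calc C₁ * (x ^ n * x) ≤ |C₁| * (x ^ n * x) :=
        mul_le_mul_of_nonneg_right (le_abs_self _) (by positivity)
    _ ≤ |C₁| * (x ^ n * 1) := by
        refine mul_le_mul_of_nonneg_left ?_ (abs_nonneg _)
        exact mul_le_mul_of_nonneg_left hx1.le (by positivity)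
    _ = |C₁| * x ^ n := by rw [mul_one]

/-- a polynomial which is `O(x^k √x)` is divisible by `X^(k+1)` -/
lemma dvd_of_bound (G : ℝ[X]) (k : ℕ) (C₁ : ℝ)
    (h : ∀ x : ℝ, 0 < x → x < 1 → |G.eval x| ≤ C₁ * (x ^ k * √x)) : X ^ (k + 1) ∣ G := by
  have h1 : ∀ m ≤ k + 1, X ^ m ∣ G := by
    intro m
    induction m with
    | zero => intro _; simp
    | succ m ih =>
      intro hm
      obtain ⟨H, hH⟩ := ih (by omega)
      obtain ⟨j, hj⟩ : ∃ j, k = m + j := ⟨k - m, by omega⟩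
      have h2 : |H.eval 0| ≤ 0 := by
        have h3 := le_at_zero (fun x => |H.eval x|) (fun x => C₁ * (x ^ j * √x))
          (by have := H.continuous; fun_prop) (by fun_prop) (fun x hx0 hx1 => by
            have h4 := h x hx0 hx1
            rw [hH, eval_mul, eval_pow, eval_X, abs_mul, abs_of_pos (pow_pos hx0 m), hj, pow_add]
              at h4
            have h5 : 0 < x ^ m := pow_pos hx0 m
            have h6 : x ^ m * |H.eval x| ≤ x ^ m * (C₁ * (x ^ j * √x)) := by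
              calc x ^ m * |H.eval x| ≤ C₁ * (x ^ m * x ^ j * √x) := h4
                _ = x ^ m * (C₁ * (x ^ j * √x)) := by ring
            exact le_of_mul_le_mul_left h6 h5)
        simpa using h3
      have h3 : X ∣ H := by
        rw [X_dvd_iff, coeff_zero_eq_eval_zero]
        exact abs_eq_zero.1 (le_antisymm h2 (abs_nonneg _))
      obtain ⟨H', rfl⟩ := h3
      exact ⟨H', by rw [hH, pow_succ, mul_assoc]⟩
  exact h1 _ le_rfl

lemma bound_of_dvd (G : ℝ[X]) (k : ℕ) (h : X ^ k ∣ G) :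
    ∃ B : ℝ, 0 ≤ B ∧ ∀ x : ℝ, 0 < x → x < 1 → |G.eval x| ≤ B * x ^ k := by
  obtain ⟨H, rfl⟩ := h
  obtain ⟨B, hB0, hB⟩ := poly_bdd H
  refine ⟨B, hB0, fun x hx0 hx1 => ?_⟩
  rw [eval_mul, eval_pow, eval_X, abs_mul, abs_of_pos (pow_pos hx0 k), mul_comm]
  exact mul_le_mul_of_nonneg_right (hB x hx0 hx1) (by positivity)

/-- a function with an expansion which is `O(x^k √x)` is `O(x^(k+1))` -/
lemma gain {f : ℝ → ℝ} (hf : EE f) (k : ℕ) (C₁ : ℝ)
    (h : ∀ x : ℝ, 0 < x → x < 1 → |f x| ≤ C₁ * (x ^ k * √x)) :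
    ∃ B : ℝ, 0 ≤ B ∧ ∀ x : ℝ, 0 < x → x < 1 → |f x| ≤ B * x ^ (k + 1) := by
  obtain ⟨p, C₂, hC₂, hp⟩ := EE.get hf (k + 1)
  have hsq : ∀ x : ℝ, 0 < x → x < 1 → x ^ (k + 1) ≤ x ^ k * √x := by
    intro x hx0 hx1
    rw [pow_succ]
    refine mul_le_mul_of_nonneg_left ?_ (by positivity)
    apply Real.le_sqrt_of_sq_le
    nlinarith
  have h1 : X ^ (k + 1) ∣ p := by
    refine dvd_of_bound p k (C₁ + C₂) fun x hx0 hx1 => ?_
    have h2 : p.eval x = f x - (f x - p.eval x) := by ring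
    rw [h2, add_mul]
    refine (abs_sub _ _).trans (add_le_add (h x hx0 hx1) ((hp x hx0 hx1).trans ?_))
    exact mul_le_mul_of_nonneg_left (hsq x hx0 hx1) hC₂
  obtain ⟨B, hB0, hB⟩ := bound_of_dvd p (k + 1) h1
  refine ⟨C₂ + B, by positivity, fun x hx0 hx1 => ?_⟩
  have h2 : f x = (f x - p.eval x) + p.eval x := by ring
  rw [h2, add_mul]
  exact (abs_add_le _ _).trans (add_le_add (hp x hx0 hx1) (hB x hx0 hx1))

lemma ee_flat (V W g : ℝ → ℝ) (hV : EE V) (hW : EE W) (hg : EE g)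
    (hc : ∃ c : ℝ, 0 < c ∧ ∀ x : ℝ, 0 < x → x < 1 → c ≤ V x)
    (h : ∀ x : ℝ, 0 < x → x < 1 → V x * W x / √x = g x / x) :
    ∀ n : ℕ, ∃ C : ℝ, ∀ x : ℝ, 0 < x → x < 1 → |W x| ≤ C * x ^ n := by
  obtain ⟨c, hc0, hc⟩ := hc
  have heq : ∀ x : ℝ, 0 < x → x < 1 → g x = √x * (V x * W x) := by
    intro x hx0 hx1
    have h1 := h x hx0 hx1
    have hs : 0 < √x := Real.sqrt_pos.2 hx0
    have hss : √x * √x = x := Real.mul_self_sqrt hx0.le
    rw [div_eq_div_iff hs.ne' hx0.ne'] at h1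
    have h2 : √x * (√x * (V x * W x)) = √x * g x := by
      rw [← mul_assoc, hss]
      linarith
    exact (mul_left_cancel₀ hs.ne' h2).symm
  obtain ⟨BV, hBV0, hBV⟩ := EE.bdd hV
  have key : ∀ n : ℕ, ∃ C : ℝ, 0 ≤ C ∧ ∀ x : ℝ, 0 < x → x < 1 → |W x| ≤ C * x ^ n := by
    intro n
    induction n with
    | zero =>
      obtain ⟨B, hB0, hB⟩ := EE.bdd hW
      exact ⟨B, hB0, fun x hx0 hx1 => by rw [pow_zero, mul_one]; exact hB x hx0 hx1⟩
    | succ k ih =>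
      obtain ⟨C₁, hC₁, h1⟩ := ih
      obtain ⟨B, hB0, hB⟩ := gain hg k (BV * C₁) (fun x hx0 hx1 => by
        have hs : 0 < √x := Real.sqrt_pos.2 hx0
        rw [heq x hx0 hx1, abs_mul, abs_mul, abs_of_pos hs]
        calc √x * (|V x| * |W x|) ≤ √x * (BV * (C₁ * x ^ k)) := by
              refine mul_le_mul_of_nonneg_left ?_ hs.le
              exact mul_le_mul (hBV x hx0 hx1) (h1 x hx0 hx1) (abs_nonneg _) hBV0
          _ = BV * C₁ * (x ^ k * √x) := by ring)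
      refine gain hW k (B / c) (fun x hx0 hx1 => ?_)
      have hs : 0 < √x := Real.sqrt_pos.2 hx0
      have hss : √x * √x = x := Real.mul_self_sqrt hx0.le
      have h2 := hB x hx0 hx1
      rw [heq x hx0 hx1, abs_mul, abs_mul, abs_of_pos hs] at h2
      have h3 : c ≤ |V x| := (hc x hx0 hx1).trans (le_abs_self _)
      have h4 : √x * (c * |W x|) ≤ √x * (B * (x ^ k * √x)) := by
        calc √x * (c * |W x|) ≤ √x * (|V x| * |W x|) := by
              refine mul_le_mul_of_nonneg_left ?_ hs.le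
              exact mul_le_mul_of_nonneg_right h3 (abs_nonneg _)
          _ ≤ B * x ^ (k + 1) := h2
          _ = √x * (B * (x ^ k * √x)) := by
              have h6 : √x * (B * (x ^ k * √x)) = B * x ^ k * (√x * √x) := by ring
              rw [h6, hss, pow_succ]
              ring
      have h5 := le_of_mul_le_mul_left h4 hs
      rw [div_mul_eq_mul_div, le_div_iff₀ hc0]
      linarith
  intro n
  obtain ⟨C₁, _, h1⟩ := key n
  exact ⟨C₁, h1⟩

theorem t_EEA : EEA where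
  const := ee_const
  id := ee_id
  add := ee_add
  mul := ee_mul
  div := fun f g hf hg hc => by
    have h := ee_mul f (fun x => (g x)⁻¹) hf (ee_inv g hg hc)
    exact ee_congr _ _ h fun x _ _ => (div_eq_mul_inv _ _).symm
  exp := fun a => ee_ana _ fun x _ _ => by fun_prop
  congr := ee_congr
  ana := ee_ana
  flat := ee_flat

end Pool.Agent.Y518.FK
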